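import Mathlib

set_option autoImplicit false

namespace Pool.Agent.HurewiczGroups

open Set Filter Topology

/-- The Hurewicz covering property `U_fin(O, Gamma)` of a subset `X` of a topological space:
for every sequence of covers of `X` by open sets one can choose finite subfamilies such that every
point of `X` is covered by all but finitely many of the chosen families. -/
def Hurewicz {α : Type*} [TopologicalSpace α] (X : Set α) : Prop :=
  ∀ U : ℕ → Set (Set α), (∀ n, (∀ u ∈ U n, IsOpen u) ∧ X ⊆ ⋃₀ U n) →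
    ∃ F : ℕ → Finset (Set α), (∀ n, (↑(F n) : Set (Set α)) ⊆ U n) ∧
      ∀ x ∈ X, ∀ᶠ n in atTop, x ∈ ⋃₀ (↑(F n) : Set (Set α))

/-- Continuous images of Hurewicz sets are Hurewicz. -/
theorem Hurewicz.image {α β : Type*} [TopologicalSpace α] [TopologicalSpace β] {X : Set α}
    (hX : Hurewicz X) {f : α → β} (hf : Continuous f) : Hurewicz (f '' X) := by
  classical
  intro U hU
  obtain ⟨F, hF, hx⟩ := hX (fun n => (fun u => f ⁻¹' u) '' U n) (fun n => by
    refine ⟨?_, ?_⟩
    · rintro _ ⟨u, hu, rfl⟩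
      exact ((hU n).1 u hu).preimage hf
    · intro x hx
      obtain ⟨u, hu, hxu⟩ := (hU n).2 ⟨x, hx, rfl⟩
      exact ⟨f ⁻¹' u, ⟨u, hu, rfl⟩, hxu⟩)
  have hch : ∀ n, ∃ c : Set α → Set β, ∀ v ∈ F n, c v ∈ U n ∧ f ⁻¹' (c v) = v := by
    intro n
    have : ∀ v : Set α, ∃ w : Set β, v ∈ F n → w ∈ U n ∧ f ⁻¹' w = v := by
      intro v
      by_cases hv : v ∈ F n
      · obtain ⟨w, hw, hwv⟩ := hF n hv
        exact ⟨w, fun _ => ⟨hw, hwv⟩⟩
      · exact ⟨∅, fun h => absurd h hv⟩
    choose c hc using this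
    exact ⟨c, fun v hv => hc v hv⟩
  choose c hc using hch
  refine ⟨fun n => (F n).image (c n), ?_, ?_⟩
  · intro n w hw
    simp only [Finset.coe_image, mem_image, Finset.mem_coe] at hw
    obtain ⟨v, hv, rfl⟩ := hw
    exact (hc n v hv).1
  · rintro _ ⟨x, hxX, rfl⟩
    filter_upwards [hx x hxX] with n hn
    obtain ⟨v, hv, hxv⟩ := hn
    refine ⟨c n v, ?_, ?_⟩
    · simp only [Finset.coe_image, mem_image, Finset.mem_coe]
      exact ⟨v, hv, rfl⟩
    · have h2 := (hc n v hv).2
      have : x ∈ f ⁻¹' (c n v) := by rw [h2]; exact hxv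
      exact this

/-- A Hurewicz subset of a Polish space lying in a `G_delta` set `M` lies in a
sigma-compact subset of `M`. -/
theorem Hurewicz.exists_sigmaCompact {α : Type*} [TopologicalSpace α] [PolishSpace α]
    {X : Set α} (hX : Hurewicz X) {M : Set α} (hM : IsGδ M) (hXM : X ⊆ M) :
    ∃ F : Set α, IsSigmaCompact F ∧ X ⊆ F ∧ F ⊆ M := by
  classical
  letI := TopologicalSpace.upgradeIsCompletelyMetrizable α
  obtain ⟨V, hVo, hVM⟩ := hM.eq_iInter_nat
  have hMW : ∀ n, IsOpen (⋂ k ∈ Finset.range (n + 1), V k) := fun n =>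
    isOpen_biInter_finset (fun k _ => hVo k)
  have hXW : ∀ n, M ⊆ ⋂ k ∈ Finset.range (n + 1), V k := by
    intro n x hx
    rw [hVM] at hx
    simp only [mem_iInter] at hx ⊢
    exact fun k _ => hx k
  obtain ⟨F, hF, hFx⟩ := hX (fun n => {u | IsOpen u ∧
      closure u ⊆ (⋂ k ∈ Finset.range (n + 1), V k) ∧
      ∃ x : α, closure u ⊆ Metric.closedBall x (1 / ((n : ℝ) + 1))}) (fun n => by
    refine ⟨fun u hu => hu.1, ?_⟩
    intro x hx
    have hxW := hXW n (hXM hx)
    obtain ⟨r, hr0, hr⟩ := Metric.isOpen_iff.mp (hMW n) x hxW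
    have hn : (0 : ℝ) < 1 / ((n : ℝ) + 1) := by positivity
    refine ⟨Metric.ball x (min (r / 2) (1 / ((n : ℝ) + 1))), ⟨Metric.isOpen_ball, ?_, x, ?_⟩, ?_⟩
    · refine (Metric.closure_ball_subset_closedBall).trans ?_
      refine (Metric.closedBall_subset_ball ?_).trans hr
      exact lt_of_le_of_lt (min_le_left _ _) (by linarith)
    · refine (Metric.closure_ball_subset_closedBall).trans ?_
      exact Metric.closedBall_subset_closedBall (min_le_right _ _)
    · exact Metric.mem_ball_self (lt_min (by linarith) hn))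
  let K : ℕ → Set α := fun m => ⋂ n ≥ m, ⋃ u ∈ F n, closure u
  have hKc : ∀ m, IsClosed (K m) := by
    intro m
    refine isClosed_biInter (fun n _ => ?_)
    exact (F n).finite_toSet.isClosed_biUnion (fun u _ => isClosed_closure)
  have hKt : ∀ m, TotallyBounded (K m) := by
    intro m
    rw [Metric.totallyBounded_iff]
    intro ε hε
    obtain ⟨n, hn⟩ := exists_nat_one_div_lt hε
    let N := max m n
    have hNn : n ≤ N := le_max_right _ _
    have hNm : m ≤ N := le_max_left _ _
    have hε' : (1 : ℝ) / ((N : ℝ) + 1) < ε := by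
      refine lt_of_le_of_lt ?_ hn
      have : (n : ℝ) ≤ N := by exact_mod_cast hNn
      exact one_div_le_one_div_of_le (by positivity) (by linarith)
    refine ⟨↑((F N).attach.image (fun u => Classical.choose (hF N u.2).2.2)),
      Finset.finite_toSet _, ?_⟩
    intro y hy
    have hy' : y ∈ ⋃ u ∈ F N, closure u := by
      have := hy
      simp only [K, mem_iInter] at this
      exact this N hNm
    simp only [mem_iUnion] at hy'
    obtain ⟨u, hu, hyu⟩ := hy'
    have hcu := Classical.choose_spec (hF N hu).2.2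
    simp only [mem_iUnion]
    refine ⟨Classical.choose (hF N hu).2.2, ?_, ?_⟩
    · simp only [Finset.coe_image, mem_image, Finset.mem_coe, Finset.mem_attach, true_and,
        Subtype.exists]
      exact ⟨u, hu, rfl⟩
    · exact Metric.mem_ball.mpr (lt_of_le_of_lt (Metric.mem_closedBall.mp (hcu hyu)) hε')
  have hKM : ∀ m, K m ⊆ M := by
    intro m y hy
    rw [hVM]
    simp only [mem_iInter]
    intro k
    have hy' : y ∈ ⋃ u ∈ F (max m k), closure u := by
      have := hy
      simp only [K, mem_iInter] at this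
      exact this _ (le_max_left _ _)
    simp only [mem_iUnion] at hy'
    obtain ⟨u, hu, hyu⟩ := hy'
    have := (hF _ hu).2.1 hyu
    simp only [mem_iInter, Finset.mem_range] at this
    exact this k (Nat.lt_succ_of_le (le_max_right _ _))
  refine ⟨⋃ m, K m, ?_, ?_, ?_⟩
  · exact isSigmaCompact_iUnion_of_isCompact _ (fun m => (hKt m).isCompact_of_isClosed (hKc m))
  · intro x hx
    obtain ⟨m, hm⟩ := eventually_atTop.mp (hFx x hx)
    refine mem_iUnion.mpr ⟨m, ?_⟩
    simp only [K, mem_iInter]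
    intro n hn
    obtain ⟨u, hu, hxu⟩ := hm n hn
    exact mem_iUnion₂.mpr ⟨u, hu, subset_closure hxu⟩
  · exact iUnion_subset hKM

end Pool.Agent.HurewiczGroups
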