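import Mathlib

set_option autoImplicit false

namespace Pool.Agent.HurewiczGroups

open Set Filter Topology

/-- Schreier-type families indexed by a well-ordered set, depending on enumerations `e α` of
the initial segments. -/
inductive InS {I : Type*} [LinearOrder I] (e : I → I → ℕ) : I → Set ℕ → Prop
  | empty (α : I) : InS e α ∅
  | cons (α γ : I) (m : ℕ) (t : Set ℕ) : γ < α → e α γ < m → InS e γ t → (∀ x ∈ t, m < x) →
      InS e α (insert m t)

variable {I : Type*} [LinearOrder I] {e : I → I → ℕ}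

theorem InS.finite {α : I} {s : Set ℕ} (h : InS e α s) : s.Finite := by
  induction h with
  | empty α => exact finite_empty
  | cons α γ m t _ _ _ _ ih => exact ih.insert m

/-- A nonempty member of `InS e α` decomposes at its minimum. -/
theorem InS.decomp {α : I} {s : Set ℕ} (h : InS e α s) {m : ℕ} (hm : m ∈ s)
    (hmin : ∀ i < m, i ∉ s) :
    ∃ γ < α, e α γ < m ∧ InS e γ (s \ {m}) := by
  cases h with
  | empty => exact absurd hm (notMem_empty _)
  | cons _ γ m' t h1 h2 h3 h4 =>
    have hmm : m = m' := by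
      rcases mem_insert_iff.mp hm with h | h
      · exact h
      · exact absurd (mem_insert m' t) (hmin m' (h4 m h))
    subst hmm
    have hnt : m ∉ t := fun h => lt_irrefl _ (h4 m h)
    refine ⟨γ, h1, h2, ?_⟩
    rw [insert_sdiff_of_mem _ (mem_singleton m), sdiff_singleton_eq_self hnt]
    exact h3

/-- The families are closed. -/
theorem InS.closed [WellFoundedLT I] (hinj : ∀ α, Set.InjOn (e α) (Iio α)) (α : I) :
    ∀ x : Set ℕ, (∀ n, ∃ y, InS e α y ∧ ∀ i < n, (i ∈ x ↔ i ∈ y)) → InS e α x := by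
  induction α using WellFoundedLT.induction with
  | ind α ih =>
    intro x hx
    rcases x.eq_empty_or_nonempty with h | h
    · subst h; exact InS.empty α
    · classical
      let m := sInf x
      have hm : m ∈ x := Nat.sInf_mem h
      have hmin : ∀ i < m, i ∉ x := fun i hi => Nat.notMem_of_lt_sInf hi
      -- for each n get γ
      have hstep : ∀ n, ∃ γ < α, e α γ < m ∧ ∃ t, InS e γ t ∧ ∀ i < n, (i ∈ x \ {m} ↔ i ∈ t) := by
        intro n
        obtain ⟨y, hy, hxy⟩ := hx (max n (m + 1))
        have hmy : m ∈ y := (hxy m (lt_of_lt_of_le (Nat.lt_succ_self m) (le_max_right _ _))).mp hm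
        have hminy : ∀ i < m, i ∉ y := fun i hi hiy =>
          hmin i hi ((hxy i (lt_trans hi (lt_of_lt_of_le (Nat.lt_succ_self m)
            (le_max_right _ _)))).mpr hiy)
        obtain ⟨γ, h1, h2, h3⟩ := hy.decomp hmy hminy
        refine ⟨γ, h1, h2, y \ {m}, h3, ?_⟩
        intro i hi
        have := hxy i (lt_of_lt_of_le hi (le_max_left _ _))
        simp only [Set.mem_sdiff, mem_singleton_iff, this]
      -- pigeonhole
      have hfin : {γ : I | γ < α ∧ e α γ < m}.Finite := by
        refine Set.Finite.of_finite_image (f := e α) ?_ ?_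
        · exact (finite_lt_nat m).subset (by rintro _ ⟨γ, hγ, rfl⟩; exact hγ.2)
        · exact (hinj α).mono (fun γ hγ => hγ.1)
      have hpig : ∃ γ, γ < α ∧ e α γ < m ∧
          ∀ n, ∃ t, InS e γ t ∧ ∀ i < n, (i ∈ x \ {m} ↔ i ∈ t) := by
        by_contra hcon
        push Not at hcon
        have hcon' : ∀ γ, ∃ n, γ < α → e α γ < m → ∀ t, InS e γ t →
            ¬ ∀ i < n, (i ∈ x \ {m} ↔ i ∈ t) := by
          intro γ
          by_cases h1 : γ < α
          · by_cases h2 : e α γ < m
            · obtain ⟨n, hn⟩ := hcon γ h1 h2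
              refine ⟨n, fun _ _ t ht hh => ?_⟩
              obtain ⟨i, hi, hne⟩ := hn t ht
              have := hh i hi
              revert hne this
              tauto
            · exact ⟨0, fun _ h => absurd h h2⟩
          · exact ⟨0, fun h => absurd h h1⟩
        choose nf hnf using hcon'
        obtain ⟨γ, h1, h2, t, ht, hxt⟩ := hstep (hfin.toFinset.sup nf)
        have hle : nf γ ≤ hfin.toFinset.sup nf :=
          Finset.le_sup (f := nf) (hfin.mem_toFinset.mpr ⟨h1, h2⟩)
        exact hnf γ h1 h2 t ht (fun i hi => hxt i (lt_of_lt_of_le hi hle))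
      obtain ⟨γ, h1, h2, h3⟩ := hpig
      have h4 : InS e γ (x \ {m}) := ih γ h1 _ h3
      have h5 : insert m (x \ {m}) = x := by
        rw [insert_sdiff_singleton, insert_eq_of_mem hm]
      rw [← h5]
      refine InS.cons α γ m _ h1 h2 h4 ?_
      intro i hi
      rcases lt_trichotomy i m with h | h | h
      · exact absurd hi.1 (hmin i h)
      · exact absurd h hi.2
      · exact h

/-- Descent: no closed family of finite sets contains the restriction of `InS e α` to some
infinite set for unboundedly many `α`. -/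
theorem InS.not_unbounded (hcof : ∀ b : ℕ → I, ∃ β, ∀ n, b n ≤ β) (hne : Nonempty I)
    (hnomax : ∀ β : I, ∃ α, β < α)
    (K : Set (Set ℕ)) (hKfin : ∀ s ∈ K, s.Finite)
    (hKcl : ∀ x : Set ℕ, (∀ n, ∃ y ∈ K, ∀ i < n, (i ∈ x ↔ i ∈ y)) → x ∈ K) :
    ¬ ∀ β : I, ∃ α, β ≤ α ∧ ∃ A : Set ℕ, A.Infinite ∧ ∀ t, InS e α t → t ⊆ A → t ∈ K := by
  classical
  intro hunb
  -- states
  let P : Finset ℕ → Prop := fun s => ∀ β : I, ∃ α, β ≤ α ∧ ∃ A : Set ℕ, A.Infinite ∧
    (∀ a ∈ A, ∀ i ∈ s, i < a) ∧ ∀ t, InS e α t → t ⊆ A → (↑s ∪ t) ∈ K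
  have hP0 : P ∅ := by
    intro β
    obtain ⟨α, h1, A, h2, h3⟩ := hunb β
    refine ⟨α, h1, A, h2, by simp, ?_⟩
    intro t ht htA
    simpa using h3 t ht htA
  have hstep : ∀ s : {s : Finset ℕ // P s}, ∃ m : ℕ, (∀ i ∈ s.1, i < m) ∧ P (insert m s.1) := by
    rintro ⟨s, hs⟩
    by_contra hcon
    push Not at hcon
    have hcon' : ∀ m : ℕ, ∃ b : I, (∀ i ∈ s, i < m) → ¬ ∃ α, b ≤ α ∧ ∃ A : Set ℕ, A.Infinite ∧
        (∀ a ∈ A, ∀ i ∈ insert m s, i < a) ∧
        ∀ t, InS e α t → t ⊆ A → (↑(insert m s) ∪ t) ∈ K := by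
      intro m
      by_cases hm : ∀ i ∈ s, i < m
      · have h1 := hcon m hm
        simp only [P] at h1
        push Not at h1
        obtain ⟨b, hb⟩ := h1
        refine ⟨b, fun _ => ?_⟩
        rintro ⟨α, h2, A, h3, h4, h5⟩
        obtain ⟨t, h6, h7, h8⟩ := hb α h2 A h3 h4
        exact h8 (h5 t h6 h7)
      · exact ⟨hne.some, fun h => absurd h hm⟩
    choose b hb using hcon'
    obtain ⟨β, hβ⟩ := hcof b
    obtain ⟨β', hβ'⟩ := hnomax β
    obtain ⟨α, h1, A, h2, h3, h4⟩ := hs β'
    have hβα : β < α := lt_of_lt_of_le hβ' h1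
    obtain ⟨m, hmA, hm⟩ := h2.exists_gt (e α β)
    refine hb m (fun i hi => h3 m hmA i hi) ⟨β, hβ m, A ∩ Ioi m, ?_, ?_, ?_⟩
    · have : A ∩ Ioi m = A \ Iic m := by
        ext a; simp
      rw [this]
      exact h2.sdiff (finite_Iic m)
    · rintro a ⟨haA, ham⟩ i hi
      rcases Finset.mem_insert.mp hi with h | h
      · rw [h]; exact ham
      · exact h3 a haA i h
    · intro t ht htA
      have h5 : InS e α (insert m t) := InS.cons α β m t hβα hm ht (fun x hx => (htA hx).2)
      have h6 := h4 (insert m t) h5 (insert_subset hmA (fun x hx => (htA hx).1))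
      have h7 : (↑(insert m s) ∪ t : Set ℕ) = ↑s ∪ insert m t := by
        ext i; simp only [Finset.coe_insert, mem_union, mem_insert_iff, Finset.mem_coe]; tauto
      rw [h7]; exact h6
  choose mf hmf1 hmf2 using hstep
  let S : ℕ → {s : Finset ℕ // P s} := fun n =>
    (fun s : {s : Finset ℕ // P s} => (⟨insert (mf s) s.1, hmf2 s⟩ : {s : Finset ℕ // P s}))^[n]
      ⟨∅, hP0⟩
  have hS : ∀ n, (S (n + 1)).1 = insert (mf (S n)) (S n).1 := by
    intro n
    simp only [S, Function.iterate_succ_apply']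
  have hSmono : ∀ n k, (S n).1 ⊆ (S (n + k)).1 := by
    intro n k
    induction k with
    | zero => exact subset_rfl
    | succ k ih =>
      rw [← add_assoc, hS]
      exact ih.trans (Finset.subset_insert _ _)
  have hmem : ∀ n, mf (S n) ∈ (S (n + 1)).1 := by
    intro n; rw [hS]; exact Finset.mem_insert_self _ _
  have hmfmono : StrictMono (fun n => mf (S n)) := by
    refine strictMono_nat_of_lt_succ (fun n => ?_)
    exact hmf1 (S (n + 1)) _ (hmem n)
  -- the members of S n are the mf (S k), k < n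
  have hSmem : ∀ n i, i ∈ (S n).1 → ∃ k < n, i = mf (S k) := by
    intro n
    induction n with
    | zero => intro i hi; exact absurd hi (by simp [S])
    | succ n ih =>
      intro i hi
      rw [hS] at hi
      rcases Finset.mem_insert.mp hi with h | h
      · exact ⟨n, Nat.lt_succ_self n, h⟩
      · obtain ⟨k, hk, h'⟩ := ih i h
        exact ⟨k, Nat.lt_succ_of_lt hk, h'⟩
  have hSK : ∀ n, (↑(S n).1 : Set ℕ) ∈ K := by
    intro n
    obtain ⟨α, _, A, _, _, h4⟩ := (S n).2 hne.some
    have := h4 ∅ (InS.empty α) (empty_subset _)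
    simpa using this
  let x : Set ℕ := range (fun n => mf (S n))
  have hxK : x ∈ K := by
    refine hKcl x (fun n => ⟨_, hSK n, ?_⟩)
    intro i hi
    constructor
    · rintro ⟨k, rfl⟩
      have hk : k < n := lt_of_le_of_lt (hmfmono.id_le k) hi
      have h1 := hmem k
      have h2 := hSmono (k + 1) (n - (k + 1))
      rw [Nat.add_sub_cancel' hk] at h2
      exact h2 h1
    · intro h
      obtain ⟨k, _, rfl⟩ := hSmem n i h
      exact ⟨k, rfl⟩
  exact (infinite_range_of_injective hmfmono.injective) (hKfin x hxK)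

end Pool.Agent.HurewiczGroups
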