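import Mathlib
import Pool.Agent.HurewiczGroups.Basic
import Pool.Agent.HurewiczGroups.Schreier

set_option autoImplicit false

namespace Pool.Agent.HurewiczGroups

open Set Filter Topology

/-- the Cantor cube -/
abbrev Om : Type := ℕ → ℕ → Bool

/-- the `n`-th column of a point of the cube -/
def col (x : Om) (n : ℕ) : Set ℕ := {l | x n l = true}

/-- Points all of whose columns are finite. -/
def FinCols : Set Om := {x | ∀ n, (col x n).Finite}

/-- basic neighbourhoods -/
def box (z : Om) (N : ℕ) : Set Om := {x | ∀ i < N, ∀ l < N, x i l = z i l}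

theorem isClopen_eval (i l : ℕ) (b : Bool) : IsClopen {x : Om | x i l = b} := by
  have hc : Continuous (fun x : Om => x i l) :=
    (continuous_apply l).comp (continuous_apply i)
  exact (isClopen_discrete ({b} : Set Bool)).preimage hc

theorem isClosed_box_compl (z : Om) (N : ℕ) : IsOpen (box z N) := by
  have : box z N = ⋂ i ∈ Finset.range N, ⋂ l ∈ Finset.range N, {x : Om | x i l = z i l} := by
    ext x; simp [box]
  rw [this]
  exact isOpen_biInter_finset (fun i _ => isOpen_biInter_finset (fun l _ =>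
    (isClopen_eval i l _).isOpen))

theorem isClosed_box (z : Om) (N : ℕ) : IsClosed (box z N) := by
  have : box z N = ⋂ i ∈ Finset.range N, ⋂ l ∈ Finset.range N, {x : Om | x i l = z i l} := by
    ext x; simp [box]
  rw [this]
  exact isClosed_biInter (fun i _ => isClosed_biInter (fun l _ =>
    (isClopen_eval i l _).isClosed))

theorem exists_box_subset {U : Set Om} (hU : IsOpen U) {z : Om} (hz : z ∈ U) :
    ∃ N, box z N ⊆ U := by
  have hdir : Directed (· ⊆ ·) (fun N => U ∪ (box z N)ᶜ) := by
    refine directed_of_isDirected_le (fun N M hNM => union_subset_union_right _ ?_)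
    refine compl_subset_compl.mpr (fun x hx i hi l hl => hx i (hi.trans_le hNM) l (hl.trans_le hNM))
  obtain ⟨N, hN⟩ := isCompact_univ.elim_directed_cover (fun N => U ∪ (box z N)ᶜ)
    (fun N => hU.union (isClosed_box z N).isOpen_compl) (by
      intro x _
      rw [mem_iUnion]
      by_cases hxz : x = z
      · exact ⟨0, Or.inl (hxz ▸ hz)⟩
      · have : ∃ i l, x i l ≠ z i l := by
          by_contra hcon
          push Not at hcon
          exact hxz (funext fun i => funext fun l => hcon i l)
        obtain ⟨i, l, hil⟩ := this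
        refine ⟨max i l + 1, Or.inr (fun hx => hil ?_)⟩
        exact hx i (Nat.lt_succ_of_le (le_max_left _ _)) l (Nat.lt_succ_of_le (le_max_right _ _)))
    hdir
  refine ⟨N, fun x hx => ?_⟩
  rcases hN (mem_univ x) with h | h
  · exact h
  · exact absurd hx h

/-- The set of columns `N` of points of a compact set is closed (in the sense used in
`InS.not_unbounded`). -/
theorem col_closed {K : Set Om} (hK : IsCompact K) (N : ℕ) (x : Set ℕ)
    (hx : ∀ n, ∃ y ∈ {t : Set ℕ | ∃ w ∈ K, col w N = t}, ∀ i < n, (i ∈ x ↔ i ∈ y)) :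
    x ∈ {t : Set ℕ | ∃ w ∈ K, col w N = t} := by
  classical
  -- decreasing sequence of nonempty compact sets
  let C : ℕ → Set Om := fun n => K ∩ {w : Om | ∀ i < n, w N i = decide (i ∈ x)}
  have hcl : ∀ n, IsClosed {w : Om | ∀ i < n, w N i = decide (i ∈ x)} := by
    intro n
    have : {w : Om | ∀ i < n, w N i = decide (i ∈ x)} =
        ⋂ i ∈ Finset.range n, {w : Om | w N i = decide (i ∈ x)} := by
      ext w; simp
    rw [this]
    exact isClosed_biInter (fun i _ => (isClopen_eval N i _).isClosed)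
  have hne : (⋂ n, C n).Nonempty := by
    refine IsCompact.nonempty_iInter_of_sequence_nonempty_isCompact_isClosed C ?_ ?_ ?_ ?_
    · intro n w hw
      exact ⟨hw.1, fun i hi => hw.2 i (Nat.lt_succ_of_lt hi)⟩
    · intro n
      obtain ⟨y, ⟨w, hwK, hwy⟩, hxy⟩ := hx n
      refine ⟨w, hwK, fun i hi => ?_⟩
      have h1 := hxy i hi
      rw [← hwy] at h1
      have h2 : i ∈ col w N ↔ w N i = true := Iff.rfl
      rw [h2] at h1
      by_cases h3 : i ∈ x
      · rw [h1.mp h3]; simp [h3]
      · have : w N i ≠ true := fun h => h3 (h1.mpr h)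
        simp [h3, Bool.eq_false_iff.mpr this]
    · exact hK.inter_right (hcl 0)
    · intro n
      exact hK.isClosed.inter (hcl n)
  obtain ⟨w, hw⟩ := hne
  rw [mem_iInter] at hw
  refine ⟨w, (hw 0).1, ?_⟩
  ext i
  have := (hw (i + 1)).2 i (Nat.lt_succ_self i)
  change w N i = true ↔ i ∈ x
  rw [this]; simp

/-- The compact pieces. -/
def Piece {I : Type*} [LinearOrder I] (e : I → I → ℕ) (A : I → Set ℕ) (α : I) : Set Om :=
  {x | ∀ n, InS e α (col x n) ∧ ∀ l ∈ col x n, l ∈ A α ∧ n < l}

variable {I : Type*} [LinearOrder I] {e : I → I → ℕ} {A : I → Set ℕ}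

theorem isClosed_piece [WellFoundedLT I] (hinj : ∀ α, Set.InjOn (e α) (Iio α)) (α : I) :
    IsClosed (Piece e A α) := by
  classical
  rw [← isOpen_compl_iff, isOpen_iff_mem_nhds]
  intro x hx
  rw [Piece, mem_compl_iff, mem_ofPred_eq] at hx
  push Not at hx
  obtain ⟨n, hn⟩ := hx
  by_cases h1 : InS e α (col x n)
  · obtain ⟨l, hl, hl2⟩ := hn h1
    refine mem_of_superset ((isClopen_eval n l true).isOpen.mem_nhds hl) ?_
    intro y hy hyP
    have := (hyP n).2 l hy
    exact absurd this.2 (not_lt.mpr (hl2 this.1))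
  · -- not in the closed family
    have h2 : ∃ N, ∀ y, InS e α y → ¬ ∀ i < N, (i ∈ col x n ↔ i ∈ y) := by
      by_contra hcon
      push Not at hcon
      exact h1 (InS.closed hinj α _ (fun N => by
        obtain ⟨y, hy, hxy⟩ := hcon N
        exact ⟨y, hy, hxy⟩))
    obtain ⟨N, hN⟩ := h2
    refine mem_of_superset ((isClosed_box_compl x (max N (n + 1))).mem_nhds
      (fun i _ l _ => rfl)) ?_
    intro y hy hyP
    refine hN _ (hyP n).1 ?_
    intro i hi
    have := hy n (lt_of_lt_of_le (Nat.lt_succ_self n) (le_max_right _ _)) i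
      (lt_of_lt_of_le hi (le_max_left _ _))
    change x n i = true ↔ y n i = true
    rw [this]

theorem isCompact_piece [WellFoundedLT I] (hinj : ∀ α, Set.InjOn (e α) (Iio α)) (α : I) :
    IsCompact (Piece e A α) := (isClosed_piece hinj α).isCompact

theorem zero_mem_piece (α : I) : (fun _ _ => false) ∈ Piece e A α := by
  intro n
  have : col (fun _ _ => false) n = ∅ := by ext l; simp [col]
  rw [this]
  exact ⟨InS.empty α, fun l hl => absurd hl (notMem_empty _)⟩

theorem piece_subset_finCols (α : I) : Piece e A α ⊆ FinCols := fun _ hx n => (hx n).1.finite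

/-- No sigma-compact subset of `FinCols` contains all the pieces. -/
theorem not_sigmaCompact_between [WellFoundedLT I] (hinj : ∀ α, Set.InjOn (e α) (Iio α))
    (hcof : ∀ b : ℕ → I, ∃ β, ∀ n, b n ≤ β) (hne : Nonempty I)
    (hnomax : ∀ β : I, ∃ α, β < α) (hA : ∀ α, (A α).Infinite)
    {F : Set Om} (hF : IsSigmaCompact F) (hPF : ∀ α, Piece e A α ⊆ F) (hFB : F ⊆ FinCols) :
    False := by
  classical
  obtain ⟨K, hK, hKF⟩ := hF
  have hKF' : ∀ j, K j ⊆ F := fun j => by rw [← hKF]; exact subset_iUnion K j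
  -- for every α there are j, N
  have hstep : ∀ α, ∃ p : ℕ × ℕ, ∀ t, InS e α t → t ⊆ A α ∩ Ioi p.2 →
      t ∈ {t : Set ℕ | ∃ w ∈ K p.1, col w p.2 = t} := by
    intro α
    let Z := Piece e A α
    have hZc : IsClosed Z := isClosed_piece hinj α
    have : CompactSpace Z := isCompact_iff_compactSpace.mp hZc.isCompact
    have : Nonempty Z := ⟨⟨_, zero_mem_piece α⟩⟩
    have hcl : ∀ j, IsClosed ((Subtype.val : Z → Om) ⁻¹' (K j)) := fun j =>
      (hK j).isClosed.preimage continuous_subtype_val
    have hun : (⋃ j, (Subtype.val : Z → Om) ⁻¹' (K j)) = univ := by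
      rw [eq_univ_iff_forall]
      intro z
      have : z.1 ∈ F := hPF α z.2
      rw [← hKF] at this
      obtain ⟨n, hn⟩ := mem_iUnion.mp this
      exact mem_iUnion.mpr ⟨n, hn⟩
    obtain ⟨j, z, hz⟩ := nonempty_interior_of_iUnion_of_closed hcl hun
    obtain ⟨U, hUo, hUz⟩ := isOpen_induced_iff.mp
      (isOpen_interior (s := (Subtype.val : Z → Om) ⁻¹' (K j)))
    have hzU : z.1 ∈ U := by
      have : z ∈ (Subtype.val ⁻¹' U : Set Z) := by rw [hUz]; exact hz
      exact this
    obtain ⟨N, hN⟩ := exists_box_subset hUo hzU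
    refine ⟨(j, N), ?_⟩
    intro t ht htA
    let w : Om := Function.update z.1 N (fun l => decide (l ∈ t))
    have hcolN : col w N = t := by
      ext l; simp [col, w]
    have hcoli : ∀ i, i ≠ N → col w i = col z.1 i := by
      intro i hi
      simp only [col, w, Function.update_of_ne hi]
    have hwZ : w ∈ Z := by
      intro i
      by_cases hi : i = N
      · subst hi
        rw [hcolN]
        exact ⟨ht, fun l hl => ⟨(htA hl).1, (htA hl).2⟩⟩
      · rw [hcoli i hi]
        exact z.2 i
    have hwU : w ∈ U := by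
      apply hN
      intro i hi l _
      simp only [w, Function.update_of_ne (ne_of_lt hi)]
    have : (⟨w, hwZ⟩ : Z) ∈ (Subtype.val ⁻¹' U : Set Z) := hwU
    rw [hUz] at this
    have h3 := interior_subset this
    exact ⟨w, h3, hcolN⟩
  choose p hp using hstep
  -- pigeonhole
  have hpig : ∃ q : ℕ × ℕ, ∀ β, ∃ α, β ≤ α ∧ p α = q := by
    by_contra hcon
    push Not at hcon
    choose b hb using hcon
    obtain ⟨β, hβ⟩ := hcof (fun n => b ((Denumerable.eqv (ℕ × ℕ)).symm n))
    have h1 := hβ (Denumerable.eqv (ℕ × ℕ) (p β))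
    simp only [Equiv.symm_apply_apply] at h1
    exact hb (p β) β h1 rfl
  obtain ⟨q, hq⟩ := hpig
  refine InS.not_unbounded (e := e) hcof hne hnomax
    {t : Set ℕ | ∃ w ∈ K q.1, col w q.2 = t} ?_ (col_closed (hK q.1) q.2) ?_
  · rintro _ ⟨w, hw, rfl⟩
    exact hFB (hKF' _ hw) q.2
  · intro β
    obtain ⟨α, h1, h2⟩ := hq β
    refine ⟨α, h1, A α ∩ Ioi q.2, ?_, ?_⟩
    · have : A α ∩ Ioi q.2 = A α \ Iic q.2 := by
        ext a; simp
      rw [this]
      exact (hA α).sdiff (finite_Iic _)
    · intro t ht htA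
      have := hp α t ht (by rw [h2]; exact htA)
      rw [h2] at this
      exact this

end Pool.Agent.HurewiczGroups
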