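import Mathlib
import Pool.Agent.HurewiczGroups.Cube

set_option autoImplicit false

namespace Pool.Agent.HurewiczGroups

open Set Filter Topology

/-- finitely supported points of the cube -/
def FinSupp : Set Om := {x | ∃ m, ∀ i l, (m ≤ i ∨ m ≤ l) → x i l = false}

theorem finSupp_countable : FinSupp.Countable := by
  classical
  have : FinSupp ⊆ range (fun s : Finset (ℕ × ℕ) => (fun i l => decide ((i, l) ∈ s) : Om)) := by
    rintro x ⟨m, hm⟩
    refine ⟨((Finset.range m) ×ˢ (Finset.range m)).filter (fun p => x p.1 p.2 = true), ?_⟩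
    funext i l
    by_cases h : m ≤ i ∨ m ≤ l
    · rw [hm i l h]
      simp only [Finset.mem_filter, Finset.mem_product, Finset.mem_range, decide_eq_false_iff_not]
      rintro ⟨⟨h1, h2⟩, _⟩
      rcases h with h | h <;> omega
    · push Not at h
      simp only [Finset.mem_filter, Finset.mem_product, Finset.mem_range]
      cases hx : x i l <;> simp [h.1, h.2]
  exact (countable_range _).mono this

/-- The set `X`. -/
def BigX {I : Type*} [LinearOrder I] (e : I → I → ℕ) (A : I → Set ℕ) : Set Om :=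
  FinSupp ∪ ⋃ α, Piece e A α

/-- Lindelof: pass to sequences of covers. -/
theorem hurewicz_of_seq {α : Type*} [TopologicalSpace α] [SecondCountableTopology α] {X : Set α}
    (hne : X.Nonempty)
    (h : ∀ V : ℕ → ℕ → Set α, (∀ n k, IsOpen (V n k)) → (∀ n, X ⊆ ⋃ k, V n k) →
      ∃ g : ℕ → ℕ, ∀ x ∈ X, ∀ᶠ n in atTop, ∃ k ≤ g n, x ∈ V n k) : Hurewicz X := by
  classical
  intro U hU
  have hV : ∀ n, ∃ V : ℕ → Set α, (∀ k, V k ∈ U n) ∧ X ⊆ ⋃ k, V k := by
    intro n
    obtain ⟨T, hTc, hTU, hTs⟩ := TopologicalSpace.isOpen_sUnion_countable (U n) (hU n).1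
    have hTne : T.Nonempty := by
      obtain ⟨x, hx⟩ := hne
      have := (hU n).2 hx
      rw [← hTs] at this
      obtain ⟨u, hu, _⟩ := this
      exact ⟨u, hu⟩
    obtain ⟨V, hV⟩ := hTc.exists_eq_range hTne
    refine ⟨V, fun k => hTU (hV ▸ mem_range_self k), ?_⟩
    rw [← sUnion_range, ← hV, hTs]
    exact (hU n).2
  choose V hVU hVX using hV
  obtain ⟨g, hg⟩ := h V (fun n k => (hU n).1 _ (hVU n k)) hVX
  refine ⟨fun n => (Finset.range (g n + 1)).image (V n), ?_, ?_⟩
  · intro n u hu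
    simp only [Finset.coe_image, mem_image, Finset.mem_coe, Finset.mem_range] at hu
    obtain ⟨k, _, rfl⟩ := hu
    exact hVU n k
  · intro x hx
    filter_upwards [hg x hx] with n hn
    obtain ⟨k, hk, hxk⟩ := hn
    refine ⟨V n k, ?_, hxk⟩
    simp only [Finset.coe_image, mem_image, Finset.mem_coe, Finset.mem_range]
    exact ⟨k, Nat.lt_succ_of_le hk, rfl⟩

/-- compact sets are covered by finitely many members of a countable cover -/
theorem compact_cover {α : Type*} [TopologicalSpace α] {C : Set α} (hC : IsCompact C)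
    {V : ℕ → Set α} (hV : ∀ k, IsOpen (V k)) (hCV : C ⊆ ⋃ k, V k) :
    ∃ c, ∀ x ∈ C, ∃ k ≤ c, x ∈ V k := by
  obtain ⟨t, ht⟩ := hC.elim_finite_subcover V hV hCV
  refine ⟨t.sup id, fun x hx => ?_⟩
  have := ht hx
  simp only [mem_iUnion] at this
  obtain ⟨k, hk, hxk⟩ := this
  exact ⟨k, Finset.le_sup (f := id) hk, hxk⟩

/-- Countable families of compact sets. -/
theorem countable_bound {α ι : Type*} [TopologicalSpace α] [Countable ι] {C : ι → Set α}
    (hC : ∀ i, IsCompact (C i)) {V : ℕ → ℕ → Set α} (hV : ∀ n k, IsOpen (V n k))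
    (hCV : ∀ i n, C i ⊆ ⋃ k, V n k) :
    ∃ g : ℕ → ℕ, ∀ i, ∀ᶠ n in atTop, ∀ x ∈ C i, ∃ k ≤ g n, x ∈ V n k := by
  classical
  rcases isEmpty_or_nonempty ι with h | h
  · exact ⟨fun _ => 0, fun i => h.elim i⟩
  obtain ⟨f, hf⟩ := exists_surjective_nat ι
  have : ∀ i n, ∃ c, ∀ x ∈ C i, ∃ k ≤ c, x ∈ V n k := fun i n =>
    compact_cover (hC i) (hV n) (hCV i n)
  choose c hc using this
  refine ⟨fun n => (Finset.range (n + 1)).sup (fun j => c (f j) n), fun i => ?_⟩
  obtain ⟨j, rfl⟩ := hf i
  filter_upwards [eventually_ge_atTop j] with n hn x hx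
  obtain ⟨k, hk, hxk⟩ := hc (f j) n x hx
  refine ⟨k, hk.trans ?_, hxk⟩
  exact Finset.le_sup (f := fun j => c (f j) n) (Finset.mem_range.mpr (Nat.lt_succ_of_le hn))

/-- The window sets. -/
def Win (m w : ℕ) : Set Om := {x | ∀ i < w, ∀ l < w, (m ≤ i ∨ m ≤ l) → x i l = false}

theorem isClosed_win (m w : ℕ) : IsClosed (Win m w) := by
  have : Win m w = ⋂ i ∈ Finset.range w, ⋂ l ∈ Finset.range w,
      ⋂ (_ : m ≤ i ∨ m ≤ l), {x : Om | x i l = false} := by
    ext x; simp [Win]
  rw [this]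
  exact isClosed_biInter (fun i _ => isClosed_biInter (fun l _ =>
    isClosed_iInter (fun _ => (isClopen_eval i l _).isClosed)))

theorem win_anti (m : ℕ) {w w' : ℕ} (h : w ≤ w') : Win m w' ⊆ Win m w :=
  fun _ hx i hi l hl hm => hx i (hi.trans_le h) l (hl.trans_le h) hm

theorem win_cover {V : ℕ → Set Om} (hV : ∀ k, IsOpen (V k)) (hX : FinSupp ⊆ ⋃ k, V k) (m : ℕ) :
    ∃ w, ∀ x ∈ Win m w, ∃ k ≤ w, x ∈ V k := by
  have hdir : Directed (· ⊆ ·) (fun j => (⋃ k ≤ j, V k) ∪ (Win m j)ᶜ) := by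
    refine directed_of_isDirected_le (fun j j' hj => union_subset_union ?_
      (compl_subset_compl.mpr (win_anti m hj)))
    exact biUnion_subset_biUnion_left (fun k hk => le_trans hk hj)
  obtain ⟨j, hj⟩ := isCompact_univ.elim_directed_cover
    (fun j => (⋃ k ≤ j, V k) ∪ (Win m j)ᶜ)
    (fun j => (isOpen_biUnion (fun k _ => hV k)).union (isClosed_win m j).isOpen_compl) (by
      intro x _
      rw [mem_iUnion]
      by_cases hx : ∃ j, x ∉ Win m j
      · obtain ⟨j, hj⟩ := hx
        exact ⟨j, Or.inr hj⟩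
      · push Not at hx
        have hxF : x ∈ FinSupp := by
          refine ⟨m, fun i l hil => ?_⟩
          exact hx (max i l + 1) i (Nat.lt_succ_of_le (le_max_left _ _)) l
            (Nat.lt_succ_of_le (le_max_right _ _)) hil
        obtain ⟨k, hk⟩ := mem_iUnion.mp (hX hxF)
        exact ⟨k, Or.inl (mem_biUnion (le_refl k) hk)⟩) hdir
  refine ⟨j, fun x hx => ?_⟩
  rcases hj (mem_univ x) with h | h
  · simp only [mem_iUnion] at h
    obtain ⟨k, hk, hxk⟩ := h
    exact ⟨k, hk, hxk⟩
  · exact absurd hx h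

/-- Recursion: make a family of functions increasing modulo finite. -/
theorem exists_increasing {I : Type*} [LinearOrder I] [WellFoundedLT I] {e : I → I → ℕ}
    (hinj : ∀ α, Set.InjOn (e α) (Iio α)) (f : I → ℕ → ℕ) :
    ∃ F : I → ℕ → ℕ, (∀ α n, f α n ≤ F α n) ∧
      ∀ α β, β < α → ∀ n, e α β < n → F β n ≤ F α n := by
  classical
  have hfin : ∀ α n, {β : I | β < α ∧ e α β < n}.Finite := by
    intro α n
    refine Set.Finite.of_finite_image (f := e α) ?_ ?_
    · exact (finite_lt_nat n).subset (by rintro _ ⟨γ, hγ, rfl⟩; exact hγ.2)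
    · exact (hinj α).mono (fun γ hγ => hγ.1)
  let F : I → ℕ → ℕ := (wellFounded_lt : WellFounded ((· < ·) : I → I → Prop)).fix
    (fun α ih n => f α n + ∑ β ∈ (hfin α n).toFinset.attach,
      ih β.1 ((hfin α n).mem_toFinset.mp β.2).1 n)
  have hF : ∀ α n, F α n = f α n + ∑ β ∈ (hfin α n).toFinset.attach, F β.1 n := by
    intro α n
    simp only [F]
    rw [WellFounded.fix_eq]
  refine ⟨F, ?_, ?_⟩
  · intro α n
    rw [hF]; exact Nat.le_add_right _ _
  · intro α β hβ n hn
    rw [hF α n]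
    have hmem : β ∈ (hfin α n).toFinset := (hfin α n).mem_toFinset.mpr ⟨hβ, hn⟩
    have h1 : F β n ≤ ∑ γ ∈ (hfin α n).toFinset.attach, F γ.1 n :=
      Finset.single_le_sum (f := fun γ : {x // x ∈ (hfin α n).toFinset} => F γ.1 n)
        (fun _ _ => Nat.zero_le _) (Finset.mem_attach _ ⟨β, hmem⟩)
    omega

/-- gap function -/
def gapf (F : ℕ → ℕ) (a : ℕ) : ℕ := a + 1 + ∑ i ∈ Finset.range (a + 1), F i

theorem lt_gapf (F : ℕ → ℕ) (a : ℕ) : a < gapf F a := by unfold gapf; omega

theorem le_gapf (F : ℕ → ℕ) {i a : ℕ} (h : i ≤ a) : F i ≤ gapf F a := by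
  have : F i ≤ ∑ i ∈ Finset.range (a + 1), F i :=
    Finset.single_le_sum (fun _ _ => Nat.zero_le _) (Finset.mem_range.mpr (Nat.lt_succ_of_le h))
  unfold gapf; omega

/-- sparse set -/
def sparse (F : ℕ → ℕ) : Set ℕ := range (fun k => (gapf F)^[k] 0)

theorem sparse_strictMono (F : ℕ → ℕ) : StrictMono (fun k => (gapf F)^[k] 0) := by
  refine strictMono_nat_of_lt_succ (fun n => ?_)
  rw [Function.iterate_succ_apply']
  exact lt_gapf F _

theorem sparse_infinite (F : ℕ → ℕ) : (sparse F).Infinite :=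
  infinite_range_of_injective (sparse_strictMono F).injective

theorem sparse_gap (F : ℕ → ℕ) {a b : ℕ} (ha : a ∈ sparse F) (hb : b ∈ sparse F) (hab : a < b) :
    gapf F a ≤ b := by
  obtain ⟨k, rfl⟩ := ha
  obtain ⟨k', rfl⟩ := hb
  have hk : k < k' := (sparse_strictMono F).lt_iff_lt.mp hab
  have := (sparse_strictMono F).monotone (show k + 1 ≤ k' from hk)
  change (gapf F)^[k + 1] 0 ≤ (gapf F)^[k'] 0 at this
  rw [Function.iterate_succ_apply'] at this
  exact this

/-- In ZFC, for a suitable choice of the sparse sets, `BigX` is Hurewicz. -/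
theorem exists_hurewicz {I : Type*} [LinearOrder I] [WellFoundedLT I] {e : I → I → ℕ}
    (hinj : ∀ α, Set.InjOn (e α) (Iio α)) :
    ∃ A : I → Set ℕ, (∀ α, (A α).Infinite) ∧ Hurewicz (BigX e A) := by
  classical
  have hXne : ∀ A : I → Set ℕ, (BigX e A).Nonempty := fun A =>
    ⟨fun _ _ => false, Or.inl ⟨0, fun _ _ _ => rfl⟩⟩
  have hcount : ∀ α : I, Countable (Iio α) := fun α =>
    (Set.injOn_iff_injective.mp (hinj α)).countable
  have hFSc : Countable FinSupp := finSupp_countable.to_subtype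
  by_cases hunb : ∃ f : I → ℕ → ℕ, ∀ g : ℕ → ℕ, ∃ α, ∃ᶠ n in atTop, g n < f α n
  · obtain ⟨f, hf⟩ := hunb
    obtain ⟨F, hFf, hFmono⟩ := exists_increasing hinj f
    refine ⟨fun α => sparse (F α), fun α => sparse_infinite _, hurewicz_of_seq (hXne _) ?_⟩
    intro V hVo hVX
    have hFS : ∀ n, FinSupp ⊆ ⋃ k, V n k := fun n => subset_union_left.trans (hVX n)
    have hw : ∀ n m, ∃ w, ∀ x ∈ Win m w, ∃ k ≤ w, x ∈ V n k := fun n m =>
      win_cover (hVo n) (hFS n) m
    choose w hw using hw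
    let g : ℕ → ℕ := fun m => m + 1 + ∑ n ∈ Finset.range (m + 1), w n m
    have hgm : ∀ m, m < g m := fun m => by simp only [g]; omega
    have hgw : ∀ n m, n ≤ m → w n m ≤ g m := by
      intro n m hnm
      have : w n m ≤ ∑ n ∈ Finset.range (m + 1), w n m :=
        Finset.single_le_sum (f := fun n => w n m) (fun _ _ => Nat.zero_le _)
          (Finset.mem_range.mpr (Nat.lt_succ_of_le hnm))
      simp only [g]; omega
    have hg : ∀ n m, n ≤ m → ∀ x ∈ Win m (g m), ∃ k ≤ g m, x ∈ V n k := by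
      intro n m hnm x hx
      obtain ⟨k, hk, hxk⟩ := hw n m x (win_anti m (hgw n m hnm) hx)
      exact ⟨k, hk.trans (hgw n m hnm), hxk⟩
    obtain ⟨α₀, hα₀⟩ := hf (fun m => g (g m))
    have hm : ∀ n, ∃ m, n ≤ m ∧ g (g m) < F α₀ m := by
      intro n
      obtain ⟨m, hm1, hm2⟩ := frequently_atTop.mp hα₀ n
      exact ⟨m, hm1, lt_of_lt_of_le hm2 (hFf α₀ m)⟩
    choose m hmn hmF using hm
    obtain ⟨g₁, hg₁⟩ := countable_bound (ι := Iio α₀) (C := fun β => Piece e
      (fun α => sparse (F α)) β.1) (fun β => isCompact_piece hinj _) hVo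
      (fun β n => (subset_union_right.trans' (subset_iUnion _ β.1)).trans (hVX n))
    obtain ⟨g₂, hg₂⟩ := countable_bound (ι := FinSupp) (C := fun x => {x.1})
      (fun x => isCompact_singleton) hVo (fun x n => by
        rw [singleton_subset_iff]; exact hFS n x.2)
    refine ⟨fun n => g₁ n + g₂ n + g (g (m n)), ?_⟩
    intro x hx
    rcases hx with hx | hx
    · filter_upwards [hg₂ ⟨x, hx⟩] with n hn
      obtain ⟨k, hk, hxk⟩ := hn x rfl
      exact ⟨k, by omega, hxk⟩
    · obtain ⟨α, hxα⟩ := mem_iUnion.mp hx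
      by_cases hαα : α < α₀
      · filter_upwards [hg₁ ⟨α, hαα⟩] with n hn
        obtain ⟨k, hk, hxk⟩ := hn x hxα
        exact ⟨k, by omega, hxk⟩
      · have hev : ∀ᶠ n in atTop, F α₀ (m n) ≤ F α (m n) := by
          rcases eq_or_lt_of_le (not_lt.mp hαα) with h | h
          · rw [h]; exact Eventually.of_forall (fun n => le_rfl)
          · filter_upwards [eventually_gt_atTop (e α α₀)] with n hn
            exact hFmono α α₀ h (m n) (lt_of_lt_of_le hn (hmn n))
        filter_upwards [hev] with n hn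
        -- at most one point of the sparse set in the window
        have hone : ∀ a ∈ sparse (F α), ∀ b ∈ sparse (F α), m n ≤ a → a < b → b < g (g (m n)) →
            False := by
          intro a ha b hb hma hab hbg
          have h1 := sparse_gap (F α) ha hb hab
          have h2 := le_gapf (F α) hma
          have h3 := hmF n
          omega
        -- one of the two windows is missed
        have hmiss : (∀ a ∈ sparse (F α), ¬ (m n ≤ a ∧ a < g (m n))) ∨
            (∀ a ∈ sparse (F α), ¬ (g (m n) ≤ a ∧ a < g (g (m n)))) := by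
          by_contra hcon
          push Not at hcon
          obtain ⟨⟨a, ha, ha1, ha2⟩, b, hb, hb1, hb2⟩ := hcon
          exact hone a ha b hb ha1 (by omega) hb2
        -- membership in windows
        have hwin : ∀ m', (∀ a ∈ sparse (F α), ¬ (m' ≤ a ∧ a < g m')) → x ∈ Win m' (g m') := by
          intro m' hmm i hi l hl hil
          by_contra hcon
          have hcon' : l ∈ col x i := by
            change x i l = true
            simpa using hcon
          obtain ⟨h1, h2⟩ := (hxα i).2 l hcon'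
          refine hmm l h1 ⟨?_, hl⟩
          rcases hil with h | h
          · omega
          · exact h
        rcases hmiss with h | h
        · obtain ⟨k, hk, hxk⟩ := hg n (m n) (hmn n) x (hwin _ h)
          refine ⟨k, ?_, hxk⟩
          have := hgm (g (m n))
          omega
        · obtain ⟨k, hk, hxk⟩ := hg n (g (m n)) ((hmn n).trans (hgm _).le) x (hwin _ h)
          exact ⟨k, by omega, hxk⟩
  · push Not at hunb
    refine ⟨fun _ => univ, fun _ => infinite_univ, hurewicz_of_seq (hXne _) ?_⟩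
    intro V hVo hVX
    have hFS : ∀ n, FinSupp ⊆ ⋃ k, V n k := fun n => subset_union_left.trans (hVX n)
    have hc : ∀ α n, ∃ c, ∀ x ∈ Piece e (fun _ => (univ : Set ℕ)) α, ∃ k ≤ c, x ∈ V n k :=
      fun α n => compact_cover (isCompact_piece hinj α) (hVo n)
        ((subset_union_right.trans' (subset_iUnion _ α)).trans (hVX n))
    choose c hc using hc
    obtain ⟨g, hg⟩ := hunb c
    obtain ⟨g₂, hg₂⟩ := countable_bound (ι := FinSupp) (C := fun x => {x.1})
      (fun x => isCompact_singleton) hVo (fun x n => by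
        rw [singleton_subset_iff]; exact hFS n x.2)
    refine ⟨fun n => g n + g₂ n, ?_⟩
    intro x hx
    rcases hx with hx | hx
    · filter_upwards [hg₂ ⟨x, hx⟩] with n hn
      obtain ⟨k, hk, hxk⟩ := hn x rfl
      exact ⟨k, by omega, hxk⟩
    · obtain ⟨α, hxα⟩ := mem_iUnion.mp hx
      have h1 := hg α
      filter_upwards [h1] with n hn
      obtain ⟨k, hk, hxk⟩ := hc α n x hxα
      exact ⟨k, by omega, hxk⟩

end Pool.Agent.HurewiczGroups
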