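import Mathlib

set_option autoImplicit false

namespace Pool.Agent.HurewiczGroups

open Set Filter Topology

/-- Countable unions of sigma-compact sets are sigma-compact. -/
theorem isSigmaCompact_iUnion' {α ι : Type*} [TopologicalSpace α] [Countable ι] (s : ι → Set α)
    (hs : ∀ i, IsSigmaCompact (s i)) : IsSigmaCompact (⋃ i, s i) :=
  isSigmaCompact_iUnion s hs

/-- A relative form of the Hurewicz dichotomy: if an analytic set `A` is not contained in a
sigma-compact subset of `L`, then there is a countable set `Q` disjoint from `L` which meets every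
sigma-compact set containing `A`. -/
theorem exists_countable_meets {α : Type*} [TopologicalSpace α] [T2Space α] {A L : Set α}
    (hA : MeasureTheory.AnalyticSet A)
    (hns : ¬ ∃ F : Set α, IsSigmaCompact F ∧ A ⊆ F ∧ F ⊆ L) :
    ∃ Q : Set α, Q.Countable ∧ Disjoint Q L ∧
      ∀ F : Set α, IsSigmaCompact F → A ⊆ F → (F ∩ Q).Nonempty := by
  classical
  rw [MeasureTheory.AnalyticSet] at hA
  rcases hA with h | ⟨f, hf, hfA⟩
  · exact absurd ⟨∅, isSigmaCompact_empty, h.subset, empty_subset _⟩ hns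
  let B := TopologicalSpace.countableBasis (ℕ → ℕ)
  have hB : TopologicalSpace.IsTopologicalBasis B := TopologicalSpace.isBasis_countableBasis _
  have hBc : B.Countable := TopologicalSpace.countable_countableBasis _
  let O : Set (Set (ℕ → ℕ)) := {C ∈ B | ∃ S : Set α, IsSigmaCompact S ∧ f '' C ⊆ S ∧ S ⊆ L}
  have hOc : O.Countable := hBc.mono (fun C hC => hC.1)
  have hchS : ∀ C : Set (ℕ → ℕ), ∃ S : Set α, C ∈ O → IsSigmaCompact S ∧ f '' C ⊆ S ∧ S ⊆ L := by
    intro C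
    by_cases hC : C ∈ O
    · obtain ⟨S, hS⟩ := hC.2
      exact ⟨S, fun _ => hS⟩
    · exact ⟨∅, fun h => absurd h hC⟩
  choose S hS using hchS
  let T : Set α := ⋃ C : O, S C
  have hOc' : Countable O := hOc.to_subtype
  have hT : IsSigmaCompact T := isSigmaCompact_iUnion _ (fun C => (hS C C.2).1)
  have hTA : T ⊆ L := iUnion_subset (fun C => (hS C C.2).2.2)
  let Z : Set (ℕ → ℕ) := (⋃₀ O)ᶜ
  have hZc : IsClosed Z := by
    refine isClosed_compl_iff.mpr (isOpen_sUnion (fun C hC => hB.isOpen hC.1))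
  have hZT : f '' (Zᶜ) ⊆ T := by
    rintro _ ⟨z, hz, rfl⟩
    simp only [Z, compl_compl] at hz
    obtain ⟨C, hC, hzC⟩ := hz
    exact mem_iUnion.mpr ⟨⟨C, hC⟩, (hS C hC).2.1 ⟨z, hzC, rfl⟩⟩
  have hZne : Z.Nonempty := by
    by_contra hne
    rw [not_nonempty_iff_eq_empty] at hne
    apply hns
    refine ⟨T, hT, ?_, hTA⟩
    rw [← hfA]
    rintro _ ⟨z, rfl⟩
    exact hZT ⟨z, by rw [hne]; exact fun h => h.elim, rfl⟩
  -- the key property
  have hkey : ∀ C ∈ B, (C ∩ Z).Nonempty → IsCompact (closure (f '' (C ∩ Z))) →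
      ∃ q ∈ closure (f '' (C ∩ Z)), q ∉ L := by
    intro C hC hne hcomp
    by_contra hcon
    push Not at hcon
    have hsub : closure (f '' (C ∩ Z)) ⊆ L := fun q hq => hcon q hq
    obtain ⟨z, hzC, hzZ⟩ := hne
    apply hzZ
    refine ⟨C, ⟨hC, closure (f '' (C ∩ Z)) ∪ T, ?_, ?_, union_subset hsub hTA⟩, hzC⟩
    · have h1 : IsSigmaCompact (closure (f '' (C ∩ Z))) := hcomp.isSigmaCompact
      have := isSigmaCompact_iUnion (fun b : Bool => if b then closure (f '' (C ∩ Z)) else T)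
        (fun b => by cases b <;> simp [h1, hT])
      have h2 : (⋃ b : Bool, (if b then closure (f '' (C ∩ Z)) else T)) =
          closure (f '' (C ∩ Z)) ∪ T := by
        ext y; simp [or_comm]
      rw [h2] at this
      exact this
    · rintro _ ⟨w, hw, rfl⟩
      by_cases hwZ : w ∈ Z
      · exact Or.inl (subset_closure ⟨w, ⟨hw, hwZ⟩, rfl⟩)
      · exact Or.inr (hZT ⟨w, hwZ, rfl⟩)
  have hch : ∀ C : Set (ℕ → ℕ), ∃ Q : Set α, Q.Countable ∧ Disjoint Q L ∧
      (C ∈ B → (C ∩ Z).Nonempty → IsCompact (closure (f '' (C ∩ Z))) →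
        (closure (f '' (C ∩ Z)) ∩ Q).Nonempty) := by
    intro C
    by_cases h : C ∈ B ∧ (C ∩ Z).Nonempty ∧ IsCompact (closure (f '' (C ∩ Z)))
    · obtain ⟨q, hq, hqA⟩ := hkey C h.1 h.2.1 h.2.2
      exact ⟨{q}, countable_singleton q, disjoint_singleton_left.mpr hqA,
        fun _ _ _ => ⟨q, hq, rfl⟩⟩
    · refine ⟨∅, countable_empty, empty_disjoint L, fun h1 h2 h3 => absurd ⟨h1, h2, h3⟩ h⟩
  choose Q hQc hQA hQ using hch
  refine ⟨⋃ C ∈ B, Q C, hBc.biUnion (fun C _ => hQc C), ?_, ?_⟩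
  · rw [disjoint_iUnion₂_left]
    exact fun C _ => hQA C
  · intro F hF hAF
    obtain ⟨K, hK, hKF⟩ := hF
    -- Baire category on `Z`
    have : PolishSpace Z := hZc.polishSpace
    have : Nonempty Z := hZne.to_subtype
    have hcl : ∀ n, IsClosed ((fun z : Z => f z.1) ⁻¹' (K n)) := fun n =>
      (hK n).isClosed.preimage (hf.comp continuous_subtype_val)
    have hun : (⋃ n, (fun z : Z => f z.1) ⁻¹' (K n)) = univ := by
      rw [eq_univ_iff_forall]
      intro z
      have : f z.1 ∈ F := hAF (hfA ▸ ⟨z.1, rfl⟩)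
      rw [← hKF] at this
      obtain ⟨n, hn⟩ := mem_iUnion.mp this
      exact mem_iUnion.mpr ⟨n, hn⟩
    obtain ⟨n, z, hz⟩ := nonempty_interior_of_iUnion_of_closed hcl hun
    obtain ⟨U, hUo, hUz⟩ := isOpen_induced_iff.mp
      (isOpen_interior (s := (fun z : Z => f z.1) ⁻¹' (K n)))
    have hzU : z.1 ∈ U := by
      have : z ∈ (Subtype.val ⁻¹' U : Set Z) := by rw [hUz]; exact hz
      exact this
    obtain ⟨C, hC, hzC, hCU⟩ := hB.exists_subset_of_mem_open hzU hUo
    have hsub : f '' (C ∩ Z) ⊆ K n := by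
      rintro _ ⟨w, ⟨hwC, hwZ⟩, rfl⟩
      have : (⟨w, hwZ⟩ : Z) ∈ (Subtype.val ⁻¹' U : Set Z) := hCU hwC
      rw [hUz] at this
      have h3 := interior_subset this
      exact h3
    have hcl' : closure (f '' (C ∩ Z)) ⊆ K n := (hK n).isClosed.closure_subset_iff.mpr hsub
    have hcomp : IsCompact (closure (f '' (C ∩ Z))) := (hK n).of_isClosed_subset isClosed_closure hcl'
    obtain ⟨q, hq1, hq2⟩ := hQ C hC ⟨z.1, hzC, z.2⟩ hcomp
    refine ⟨q, ?_, mem_iUnion₂.mpr ⟨C, hC, hq2⟩⟩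
    rw [← hKF]
    exact mem_iUnion.mpr ⟨n, hcl' hq1⟩

end Pool.Agent.HurewiczGroups
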