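import Mathlib
import Pool.Agent.HurewiczGroups.Basic
import Pool.Agent.HurewiczGroups.Dichotomy

set_option autoImplicit false

namespace Pool.Agent.HurewiczGroups

open Set Filter Topology
open scoped Pointwise

variable {G : Type*} [TopologicalSpace G] [Group G] [IsTopologicalGroup G]

/-- For `E` sigma-compact and `M` a `G_delta`, the set `{y | E y ⊆ M}` is a `G_delta`. -/
theorem isGδ_mul_subset {E M : Set G} (hE : IsSigmaCompact E) (hM : IsGδ M) :
    IsGδ {y : G | ∀ e ∈ E, e * y ∈ M} := by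
  obtain ⟨K, hK, hKE⟩ := hE
  obtain ⟨V, hVo, hVM⟩ := hM.eq_iInter_nat
  have : {y : G | ∀ e ∈ E, e * y ∈ M} = ⋂ i : ℕ, ⋂ j : ℕ, {y : G | ∀ e ∈ K i, e * y ∈ V j} := by
    ext y
    simp only [mem_setOf_eq, mem_iInter]
    constructor
    · intro h i j e he
      have h1 := h e (hKE ▸ mem_iUnion.mpr ⟨i, he⟩)
      rw [hVM] at h1
      exact mem_iInter.mp h1 j
    · intro h e he
      rw [← hKE] at he
      obtain ⟨i, hi⟩ := mem_iUnion.mp he
      rw [hVM]
      exact mem_iInter.mpr (fun j => h i j e hi)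
  rw [this]
  refine IsGδ.iInter (fun i => IsGδ.iInter (fun j => IsOpen.isGδ ?_))
  rw [isOpen_iff_mem_nhds]
  intro y hy
  have hcont : Continuous (fun p : G × G => p.1 * p.2) := continuous_mul
  have hopen : IsOpen ((fun p : G × G => p.1 * p.2) ⁻¹' (V j)) := (hVo j).preimage hcont
  have hsub : K i ×ˢ ({y} : Set G) ⊆ (fun p : G × G => p.1 * p.2) ⁻¹' (V j) := by
    rintro ⟨e, z⟩ ⟨he, hz⟩
    simp only [mem_singleton_iff] at hz
    subst hz
    exact hy e he
  obtain ⟨u, v, _, hv, hu', hv', huv⟩ :=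
    generalized_tube_lemma (hK i) isCompact_singleton hopen hsub
  refine mem_of_superset (hv.mem_nhds (hv' rfl)) ?_
  intro z hz e he
  exact huv (mk_mem_prod (hu' he) hz)

/-- Products of sigma-compact sets in a topological group are sigma-compact. -/
theorem isSigmaCompact_mul {E F : Set G} (hE : IsSigmaCompact E) (hF : IsSigmaCompact F) :
    IsSigmaCompact (E * F) := by
  obtain ⟨K, hK, rfl⟩ := hE
  obtain ⟨L, hL, rfl⟩ := hF
  rw [iUnion_mul]
  refine isSigmaCompact_iUnion _ (fun i => ?_)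
  rw [mul_iUnion]
  exact isSigmaCompact_iUnion _ (fun j => ((hK i).mul (hL j)).isSigmaCompact)

theorem isSigmaCompact_union {α : Type*} [TopologicalSpace α] {E F : Set α}
    (hE : IsSigmaCompact E) (hF : IsSigmaCompact F) : IsSigmaCompact (E ∪ F) := by
  rw [union_eq_iUnion]
  exact isSigmaCompact_iUnion _ (fun b => by cases b <;> simpa)

/-- Let `X` be Hurewicz, `H` the subgroup generated by `X` and `M` a `G_delta` set containing `H`
with `M H ⊆ M`. Then there is a sigma-compact set between `H` and `M`. -/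
theorem exists_sigmaCompact_between [PolishSpace G] {X : Set G} (hX : Hurewicz X) {M : Set G}
    (hM : IsGδ M) (hHM : (Subgroup.closure X : Set G) ⊆ M)
    (hMH : ∀ m ∈ M, ∀ h ∈ Subgroup.closure X, m * h ∈ M) :
    ∃ F : Set G, IsSigmaCompact F ∧ (Subgroup.closure X : Set G) ⊆ F ∧ F ⊆ M := by
  classical
  have hX' : Hurewicz ((fun x : G => x⁻¹) '' X) := hX.image continuous_inv
  -- one step
  have hstep : ∀ E : {E : Set G // IsSigmaCompact E ∧ E ⊆ M},
      ∃ E' : {E : Set G // IsSigmaCompact E ∧ E ⊆ M}, E.1 ⊆ E'.1 ∧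
        ∀ e ∈ E.1, ∀ x ∈ X, e * x ∈ E'.1 ∧ e * x⁻¹ ∈ E'.1 := by
    rintro ⟨E, hE, hEM⟩
    have hG := isGδ_mul_subset hE hM
    have hsub : (Subgroup.closure X : Set G) ⊆ {y : G | ∀ e ∈ E, e * y ∈ M} :=
      fun h hh e he => hMH e (hEM he) h hh
    obtain ⟨F₁, hF₁, hXF₁, hF₁M⟩ := hX.exists_sigmaCompact hG
      (fun x hx => hsub (Subgroup.subset_closure hx))
    obtain ⟨F₂, hF₂, hXF₂, hF₂M⟩ := hX'.exists_sigmaCompact hG (by
      rintro _ ⟨x, hx, rfl⟩
      exact hsub (Subgroup.inv_mem _ (Subgroup.subset_closure hx)))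
    refine ⟨⟨E ∪ (E * (F₁ ∪ F₂)), isSigmaCompact_union hE
      (isSigmaCompact_mul hE (isSigmaCompact_union hF₁ hF₂)), ?_⟩, subset_union_left, ?_⟩
    · refine union_subset hEM ?_
      rintro _ ⟨e, he, y, hy | hy, rfl⟩
      · exact hF₁M hy e he
      · exact hF₂M hy e he
    · intro e he x hx
      exact ⟨Or.inr (mul_mem_mul he (Or.inl (hXF₁ hx))),
        Or.inr (mul_mem_mul he (Or.inr (hXF₂ ⟨x, hx, rfl⟩)))⟩
  choose next hnext1 hnext2 using hstep
  have h1M : (1 : G) ∈ M := hHM (Subgroup.one_mem _)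
  let E0 : {E : Set G // IsSigmaCompact E ∧ E ⊆ M} :=
    ⟨{1}, isCompact_singleton.isSigmaCompact, singleton_subset_iff.mpr h1M⟩
  let E : ℕ → {E : Set G // IsSigmaCompact E ∧ E ⊆ M} := fun n => next^[n] E0
  have hEs : ∀ n, E (n + 1) = next (E n) := fun n => Function.iterate_succ_apply' next n E0
  refine ⟨⋃ n, (E n).1, isSigmaCompact_iUnion _ (fun n => (E n).2.1), ?_,
    iUnion_subset (fun n => (E n).2.2)⟩
  intro h hh
  refine Subgroup.closure_induction_right (p := fun g _ => g ∈ ⋃ n, (E n).1) ?_ ?_ ?_ hh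
  · exact mem_iUnion.mpr ⟨0, rfl⟩
  · intro g hg y hy hgE
    obtain ⟨n, hn⟩ := mem_iUnion.mp hgE
    refine mem_iUnion.mpr ⟨n + 1, ?_⟩
    rw [hEs]
    exact (hnext2 (E n) g hn y hy).1
  · intro g hg y hy hgE
    obtain ⟨n, hn⟩ := mem_iUnion.mp hgE
    refine mem_iUnion.mpr ⟨n + 1, ?_⟩
    rw [hEs]
    exact (hnext2 (E n) g hn y hy).2

/-- Main theorem: let `H` be the subgroup generated by a Hurewicz subset of a Polish group and
suppose that `H` is analytic. If `L` is an intersection of `G_delta` sets `M` with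
`H ⊆ M` and `M H ⊆ M`, then there is a sigma-compact set between `H` and `L`. -/
theorem exists_sigmaCompact_of_invariant [PolishSpace G] {X : Set G} (hX : Hurewicz X)
    (hA : MeasureTheory.AnalyticSet ((Subgroup.closure X : Subgroup G) : Set G)) (L : Set G)
    (hL : ∀ g : G, g ∉ L → ∃ M : Set G, IsGδ M ∧
      ((Subgroup.closure X : Subgroup G) : Set G) ⊆ M ∧
      (∀ m ∈ M, ∀ h ∈ Subgroup.closure X, m * h ∈ M) ∧ g ∉ M) :
    ∃ F : Set G, IsSigmaCompact F ∧ ((Subgroup.closure X : Subgroup G) : Set G) ⊆ F ∧ F ⊆ L := by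
  classical
  by_contra hns
  obtain ⟨Q, hQc, hQd, hQ⟩ := exists_countable_meets hA hns
  have hN : ∀ q : Q, ∃ M : Set G, IsGδ M ∧
      ((Subgroup.closure X : Subgroup G) : Set G) ⊆ M ∧
      (∀ m ∈ M, ∀ h ∈ Subgroup.closure X, m * h ∈ M) ∧ q.1 ∉ M :=
    fun q => hL _ (disjoint_left.mp hQd q.2)
  choose M hM hHM hMH hMq using hN
  have : Countable Q := hQc.to_subtype
  obtain ⟨F, hF, hHF, hFM⟩ := exists_sigmaCompact_between hX (M := ⋂ q, M q)
    (IsGδ.iInter hM) (subset_iInter hHM) (by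
      intro m hm h hh
      rw [mem_iInter] at hm ⊢
      exact fun q => hMH q m (hm q) h hh)
  obtain ⟨q, hqF, hqQ⟩ := hQ F hF hHF
  exact hMq ⟨q, hqQ⟩ (mem_iInter.mp (hFM hqF) ⟨q, hqQ⟩)

/-- Corollary: if the subgroup `H` generated by a Hurewicz subset is analytic and is an
intersection of `F_sigma` subgroups, then it is sigma-compact. -/
theorem isSigmaCompact_of_iInf [PolishSpace G] {X : Set G} (hX : Hurewicz X)
    (hA : MeasureTheory.AnalyticSet ((Subgroup.closure X : Subgroup G) : Set G))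
    {ι : Type*} (K : ι → Subgroup G) (hK : Subgroup.closure X = ⨅ i, K i)
    (hKF : ∀ i, ∃ C : ℕ → Set G, (∀ n, IsClosed (C n)) ∧ (K i : Set G) = ⋃ n, C n) :
    IsSigmaCompact ((Subgroup.closure X : Subgroup G) : Set G) := by
  obtain ⟨F, hF, h1, h2⟩ := exists_sigmaCompact_of_invariant hX hA
    ((Subgroup.closure X : Subgroup G) : Set G) (by
      intro g hg
      have hg' : ∃ i, g ∉ K i := by
        by_contra hcon
        push Not at hcon
        apply hg
        rw [hK]
        exact (Subgroup.mem_iInf.mpr hcon)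
      obtain ⟨i, hi⟩ := hg'
      obtain ⟨C, hC, hCK⟩ := hKF i
      refine ⟨{y : G | g⁻¹ * y ∉ K i}, ?_, ?_, ?_, ?_⟩
      · have : {y : G | g⁻¹ * y ∉ K i} = ⋂ n : ℕ, {y : G | g⁻¹ * y ∉ C n} := by
          ext y
          have h3 : g⁻¹ * y ∈ K i ↔ g⁻¹ * y ∈ ⋃ n, C n := by
            rw [← hCK]; rfl
          rw [mem_ofPred_eq, h3]
          simp only [mem_iUnion, not_exists, mem_iInter, mem_ofPred_eq]
        rw [this]
        refine IsGδ.iInter (fun n => IsOpen.isGδ ?_)
        exact ((hC n).isOpen_compl).preimage (continuous_const.mul continuous_id)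
      · intro h hh hcon
        apply hi
        have hhK : h ∈ K i := by
          have : h ∈ Subgroup.closure X := hh
          rw [hK] at this
          exact Subgroup.mem_iInf.mp this i
        have h4 := (K i).mul_mem hcon ((K i).inv_mem hhK)
        rw [mul_assoc, mul_inv_cancel, mul_one] at h4
        have h5 := (K i).inv_mem h4
        rwa [inv_inv] at h5
      · intro m hm h hh hcon
        apply hm
        have hhK : h ∈ K i := by
          rw [hK] at hh
          exact Subgroup.mem_iInf.mp hh i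
        have h4 := (K i).mul_mem hcon ((K i).inv_mem hhK)
        rwa [mul_assoc, mul_assoc, mul_inv_cancel, mul_one] at h4
      · intro hcon
        apply hcon
        rw [inv_mul_cancel]
        exact (K i).one_mem)
  have : ((Subgroup.closure X : Subgroup G) : Set G) = F := Subset.antisymm h1 h2
  rw [this]; exact hF

end Pool.Agent.HurewiczGroups
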