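import Mathlib
import Pool.Agent.HurewiczGroups.Bounding

set_option autoImplicit false

namespace Pool.Agent.HurewiczGroups

open Set Filter Topology
open scoped Cardinal

theorem finCols_eq : FinCols = ⋂ i : ℕ, ⋃ j : ℕ, {x : Om | ∀ l, j ≤ l → x i l = false} := by
  ext x
  simp only [FinCols, mem_ofPred_eq, mem_iInter, mem_iUnion]
  refine forall_congr' (fun i => ?_)
  constructor
  · intro h
    obtain ⟨j, hj⟩ := h.bddAbove
    refine ⟨j + 1, fun l hl => ?_⟩
    by_contra hcon
    have : l ∈ col x i := by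
      change x i l = true
      simpa using hcon
    have := hj this
    omega
  · rintro ⟨j, hj⟩
    refine (finite_lt_nat j).subset (fun l hl => ?_)
    by_contra hcon
    have h1 := hj l (not_lt.mp hcon)
    have h2 : x i l = true := hl
    rw [h1] at h2
    exact Bool.noConfusion h2

theorem exists_embedding : ∃ ι : Om → ℝ, Continuous ι ∧ Function.Injective ι := by
  obtain ⟨f, -, hf, hfi⟩ := Perfect.exists_nat_bool_injection (α := ℝ) (C := univ)
    ⟨isClosed_univ, fun x _ => by
      rw [accPt_iff_nhds]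
      intro U hU
      obtain ⟨ε, hε, hεU⟩ := Metric.mem_nhds_iff.mp hU
      refine ⟨x + ε / 2, ⟨hεU ?_, mem_univ _⟩, by linarith⟩
      rw [Metric.mem_ball, Real.dist_eq]
      rw [show x + ε / 2 - x = ε / 2 by ring, abs_of_pos (by linarith)]
      linarith⟩ ⟨0, mem_univ _⟩
  refine ⟨fun x => f (fun k => x (Nat.unpair k).1 (Nat.unpair k).2), ?_, ?_⟩
  · refine hf.comp (continuous_pi (fun k => ?_))
    exact (continuous_apply _).comp (continuous_apply _)
  · intro x y hxy
    have h := hfi hxy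
    funext i l
    have := congrFun h (Nat.pair i l)
    simpa [Nat.unpair_pair] using this

/-- Main result of this file. -/
theorem exists_real_counterexample :
    ∃ (X : Set ℝ) (K : ℕ → ℕ → Set ℝ), (∀ i j, IsClosed (K i j)) ∧ Hurewicz X ∧
      X ⊆ ⋂ i, ⋃ j, K i j ∧
      ¬ ∃ F : Set ℝ, IsSigmaCompact F ∧ X ⊆ F ∧ F ⊆ ⋂ i, ⋃ j, K i j := by
  classical
  let I : Type := (ℵ₁ : Cardinal.{0}).ord.ToType
  have hIc : #I = ℵ₁ := Cardinal.mk_ord_toType _
  have hIunc : ¬ Countable I := by
    rw [← Cardinal.mk_le_aleph0_iff, hIc, not_le]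
    exact Cardinal.aleph0_lt_aleph_one
  have hcount : ∀ α : I, (Iio α).Countable := by
    intro α
    have h1 : #(Iio α) < ℵ₁ := Cardinal.mk_Iio_toType_ord_lt α
    rw [← Cardinal.le_aleph0_iff_set_countable]
    have h2 : (ℵ₁ : Cardinal.{0}) = Order.succ ℵ₀ := Cardinal.succ_aleph0.symm
    exact Order.lt_succ_iff.mp (h1.trans_eq h2)
  have hcountc : ∀ α : I, (Iic α).Countable := by
    intro α
    rw [← Iio_insert]
    exact (hcount α).insert α
  have hne : Nonempty I := by
    by_contra h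
    rw [not_nonempty_iff] at h
    exact hIunc inferInstance
  have hcof' : ∀ b : ℕ → I, ∃ β, ∀ n, b n < β := by
    intro b
    by_contra hcon
    push Not at hcon
    apply hIunc
    rw [← Set.countable_univ_iff]
    refine (countable_iUnion (fun n => hcountc (b n))).mono (fun β _ => ?_)
    obtain ⟨n, hn⟩ := hcon β
    exact mem_iUnion.mpr ⟨n, hn⟩
  have hcof : ∀ b : ℕ → I, ∃ β, ∀ n, b n ≤ β := fun b => by
    obtain ⟨β, hβ⟩ := hcof' b
    exact ⟨β, fun n => (hβ n).le⟩
  have hnomax : ∀ β : I, ∃ α, β < α := fun β => by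
    obtain ⟨α, hα⟩ := hcof' (fun _ => β)
    exact ⟨α, hα 0⟩
  have he : ∀ α : I, ∃ f : I → ℕ, Set.InjOn f (Iio α) := fun α =>
    (Set.countable_iff_exists_injOn.mp (hcount α))
  choose e hinj using he
  obtain ⟨A, hA, hX⟩ := exists_hurewicz (e := e) hinj
  obtain ⟨ι, hι, hιi⟩ := exists_embedding
  have hcl : ∀ i j, IsClosed {x : Om | ∀ l, j ≤ l → x i l = false} := by
    intro i j
    have : {x : Om | ∀ l, j ≤ l → x i l = false} =
        ⋂ l : ℕ, ⋂ (_ : j ≤ l), {x : Om | x i l = false} := by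
      ext x; simp
    rw [this]
    exact isClosed_iInter (fun l => isClosed_iInter (fun _ => (isClopen_eval i l _).isClosed))
  have hB : ι '' FinCols = ⋂ i : ℕ, ⋃ j : ℕ, ι '' {x : Om | ∀ l, j ≤ l → x i l = false} := by
    rw [finCols_eq]
    ext y
    constructor
    · rintro ⟨x, hx, rfl⟩
      rw [mem_iInter] at hx ⊢
      intro i
      obtain ⟨j, hj⟩ := mem_iUnion.mp (hx i)
      exact mem_iUnion.mpr ⟨j, x, hj, rfl⟩
    · intro hy
      rw [mem_iInter] at hy
      obtain ⟨j0, x, hx, rfl⟩ := mem_iUnion.mp (hy 0)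
      refine ⟨x, ?_, rfl⟩
      rw [mem_iInter]
      intro i
      obtain ⟨j, x', hx', hxx⟩ := mem_iUnion.mp (hy i)
      rw [hιi hxx] at hx'
      exact mem_iUnion.mpr ⟨j, hx'⟩
  refine ⟨ι '' BigX e A, fun i j => ι '' {x : Om | ∀ l, j ≤ l → x i l = false}, ?_, ?_, ?_, ?_⟩
  · intro i j
    exact ((hcl i j).isCompact.image hι).isClosed
  · exact hX.image hι
  · rw [← hB]
    refine image_mono (union_subset ?_ (iUnion_subset (fun α => piece_subset_finCols α)))
    rintro x ⟨m, hm⟩ n
    refine (finite_lt_nat m).subset (fun l hl => ?_)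
    by_contra hcon
    have h1 := hm n l (Or.inr (not_lt.mp hcon))
    have h2 : x n l = true := hl
    rw [h1] at h2
    exact Bool.noConfusion h2
  · rintro ⟨F, hF, hXF, hFB⟩
    rw [← hB] at hFB
    refine not_sigmaCompact_between (e := e) (A := A) hinj hcof hne hnomax hA (F := ι ⁻¹' F)
      ?_ ?_ ?_
    · obtain ⟨K, hK, rfl⟩ := hF
      rw [preimage_iUnion]
      exact isSigmaCompact_iUnion_of_isCompact _
        (fun n => ((hK n).isClosed.preimage hι).isCompact)
    · intro α x hx
      exact hXF ⟨x, Or.inr (mem_iUnion.mpr ⟨α, hx⟩), rfl⟩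
    · intro x hx
      obtain ⟨y, hy, hxy⟩ := hFB hx
      rw [← hιi hxy]; exact hy

end Pool.Agent.HurewiczGroups
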